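import Pool.Agent.Lib.MP_b5021c_nt.IfaceE2
import Pool.Agent.Lib.MP_b5021c_nt.H45.Mmu

/-!
# MP_b5021c_nt, board b5, row E2_PSR: the Poisson inequality for a load of type A (helper53)
-/

namespace Pool.Agent.B5.H53

open scoped LaurentPolynomial Topology
open Polynomial Pool.Agent.B5

theorem tl_eq_aux {O : Type} [CommRing O] {n : ℤ} {k : ℕ} {q q1 : O[X]}
    (h : (LaurentPolynomial.T n * toLaurent q1 : RO O) =
      LaurentPolynomial.T (n + k) * toLaurent q) (h0 : q1.coeff 0 ≠ 0) : k = 0 ∧ q1 = q := by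
  have h1 : (toLaurent q1 : RO O) = LaurentPolynomial.T (k : ℤ) * toLaurent q := by
    have h2 : LaurentPolynomial.T (-n) * (LaurentPolynomial.T n * toLaurent q1 : RO O) =
        LaurentPolynomial.T (-n) * (LaurentPolynomial.T (n + k) * toLaurent q) := by rw [h]
    rw [← mul_assoc, ← mul_assoc, ← LaurentPolynomial.T_add, ← LaurentPolynomial.T_add,
      neg_add_cancel, LaurentPolynomial.T_zero, one_mul, neg_add_cancel_left] at h2
    exact h2
  have h3 : (toLaurent q1 : RO O) = toLaurent (X ^ k * q) := by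
    rw [h1, map_mul, Polynomial.toLaurent_X_pow]
  have h4 : q1 = X ^ k * q := Polynomial.toLaurent_injective h3
  have h5 : k = 0 := by
    by_contra hk
    apply h0
    rw [h4, Polynomial.coeff_X_pow_mul', if_neg (by omega)]
  subst h5
  exact ⟨rfl, by rw [h4, pow_zero, one_mul]⟩

theorem tl_eq {O : Type} [CommRing O] {n n1 : ℤ} {q q1 : O[X]}
    (h : (LaurentPolynomial.T n1 * toLaurent q1 : RO O) =
      LaurentPolynomial.T n * toLaurent q) (h0 : q1.coeff 0 ≠ 0) (h1 : q.coeff 0 ≠ 0) :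
    q1 = q := by
  rcases le_total n1 n with hn | hn
  · obtain ⟨k, hk⟩ := Int.le.dest hn
    rw [← hk] at h
    exact (tl_eq_aux h h0).2
  · obtain ⟨k, hk⟩ := Int.le.dest hn
    rw [← hk] at h
    exact (tl_eq_aux h.symm h1).2.symm

/-- (PSR) -/
theorem e2_psr (hN : PsnS) : PsrS := by
  intro O _ _ _ _ θ N' Q V hP hQ0 hN1 hA hle
  obtain ⟨hθ, n1, q1, hQ1, hq1, w, hw, hroots⟩ := hP
  obtain ⟨n, q, e, hQ, hV, hq, he, hfree⟩ := hA
  have hqq : q1 = q := by
    apply tl_eq (hQ1.symm.trans hQ)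
    · intro h0
      rw [h0, map_zero, norm_zero] at hq1
      exact zero_ne_one hq1
    · intro h0
      rw [h0, map_zero, norm_zero] at hq
      exact zero_ne_one hq
  subst hqq
  have hθ0 : 0 < θ := lt_trans one_pos hθ
  have hN0 : 0 < N' := lt_of_lt_of_le one_pos hN1
  set qc : ℂ[X] := q1.map (Coef.emb : O →+* ℂ) with hqc
  set ec : ℂ[X] := e.map (Coef.emb : O →+* ℂ) with hec
  have hz0 : ∀ z : ℂ, ‖z‖ = 1 → z ≠ 0 := by
    intro z hz h
    rw [h, norm_zero] at hz
    exact zero_ne_one hz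
  have hevQ : ∀ z : ℂ, ‖z‖ = 1 → evL z Q = z ^ n * qc.eval z := fun z hz => by
    rw [hQ, H45.evL_T_mul (hz0 z hz)]
  have hevV : ∀ z : ℂ, ‖z‖ = 1 → evL z V = z ^ n * (z * ec.eval z) := fun z hz => by
    rw [hV, H45.evL_T_mul (hz0 z hz), zpow_add_one₀ (hz0 z hz), mul_assoc]
  have hevR : ∀ (z : Circle) (p : RO O), evR z p = evL (z : ℂ) p := by
    intro z p
    have h := H45.evL_eq (O := O) (Circle.toUnits z) p
    exact h.symm
  have hcirc : ∀ z : ℂ, ‖z‖ = 1 → ∃ c : Circle, (c : ℂ) = z := fun z hz =>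
    ⟨⟨z, mem_sphere_zero_iff_norm.mpr hz⟩, rfl⟩
  have hqn : ∀ z : ℂ, ‖z‖ = 1 → qc.eval z ≠ 0 := by
    intro z hz h
    obtain ⟨c, hc⟩ := hcirc z hz
    apply hQ0 c
    rw [hevR, hc, hevQ z hz, h, mul_zero]
  have hzn : ∀ z : ℂ, ‖z‖ = 1 → ‖z ^ n‖ = 1 := by
    intro z hz
    rw [norm_zpow, hz, one_zpow]
  have hdist : ∀ z : ℂ, ‖z‖ = 1 → ‖z * ec.eval z - qc.eval z‖ ≤ ‖qc.eval z‖ := by
    intro z hz
    obtain ⟨c, hc⟩ := hcirc z hz
    have h := hle c
    rw [map_sub, hevR, hevR, hc, hevQ z hz, hevV z hz, ← mul_sub, norm_mul, norm_mul,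
      hzn z hz, one_mul, one_mul] at h
    exact h
  set p : ℂ[X] := C 2 * qc - X * ec with hp
  have hpev : ∀ z : ℂ, p.eval z = 2 * qc.eval z - z * ec.eval z := by
    intro z
    rw [hp]
    simp
  have hsum : p + C ((1 : ℝ) : ℂ) * X * ec = C 2 * qc := by
    rw [hp]
    simp
  have hw0 : w ≠ 0 := by
    intro h
    rw [h, norm_zero] at hw
    exact (inv_pos.mpr hθ0).ne hw
  have hPH : PHyp p ec w 1 := by
    refine ⟨one_pos, hw0, ?_, hfree, ?_, ?_, ?_⟩
    · rw [hw]
      exact inv_lt_one_of_one_lt₀ hθ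
    · intro z hz
      have h1 := hdist z hz
      have h2 : ‖z * ec.eval z - qc.eval z‖ ^ 2 ≤ ‖qc.eval z‖ ^ 2 :=
        pow_le_pow_left₀ (norm_nonneg _) h1 2
      rw [← Complex.normSq_eq_norm_sq, ← Complex.normSq_eq_norm_sq, Complex.normSq_sub] at h2
      rw [hpev, sub_mul, Complex.sub_re, Complex.mul_conj (z * ec.eval z), Complex.ofReal_re]
      have h3 : (2 * qc.eval z * (starRingEnd ℂ) (z * ec.eval z)).re =
          2 * ((z * ec.eval z) * (starRingEnd ℂ) (qc.eval z)).re := by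
        have h4 : (2 : ℂ) * qc.eval z * (starRingEnd ℂ) (z * ec.eval z) =
            (2 : ℝ) * (qc.eval z * (starRingEnd ℂ) (z * ec.eval z)) := by
          push_cast
          ring
        rw [h4, Complex.re_ofReal_mul]
        congr 1
        rw [← Complex.conj_re (qc.eval z * (starRingEnd ℂ) (z * ec.eval z)), map_mul,
          Complex.conj_conj, mul_comm]
      rw [h3]
      linarith
    · intro z hz
      rw [hsum, eval_mul, eval_C]
      exact mul_ne_zero two_ne_zero (hqn z hz)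
    · rw [hsum, roots_C_mul _ two_ne_zero]
      exact hroots
  obtain ⟨hint, hineq⟩ := hN p ec w 1 hPH
  have hec0 : ec ≠ 0 := by
    intro h
    apply hfree 0 (by simp)
    rw [h, eval_zero]
  have hEfin : (ec.rootSet ℂ).Finite := Polynomial.rootSet_finite ec ℂ
  have hagree : ∀ z : ℂ, ‖z‖ = 1 → z ∉ ec.rootSet ℂ →
      (p.eval z / (z * ec.eval z)).re = 2 * (evL z Q / evL z V).re - 1 := by
    intro z hz hzE
    have h1 : ec.eval z ≠ 0 := by
      intro h
      apply hzE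
      rw [Polynomial.mem_rootSet]
      exact ⟨hec0, by rw [Polynomial.aeval_def, Polynomial.eval₂_eq_eval_map]; simpa using h⟩
    have h2 := hz0 z hz
    have h3 : z ^ n ≠ 0 := zpow_ne_zero n h2
    rw [hevQ z hz, hevV z hz, mul_div_mul_left _ _ h3, hpev, sub_div,
      div_self (mul_ne_zero h2 h1), Complex.sub_re, Complex.one_re, mul_div_assoc]
    congr 1
    have h4 : (2 : ℂ) * (qc.eval z / (z * ec.eval z)) =
        (2 : ℝ) * (qc.eval z / (z * ec.eval z)) := by push_cast; ring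
    rw [h4, Complex.re_ofReal_mul]
  have hcod : ∀ f g : ℂ → ℝ, (∀ z : ℂ, ‖z‖ = 1 → z ∉ ec.rootSet ℂ → f z = g z) →
      f =ᶠ[Filter.codiscreteWithin (Metric.sphere (0 : ℂ) |(1 : ℝ)|)] g := by
    intro f g h
    have h1 : ((ec.rootSet ℂ)ᶜ : Set ℂ) ∈
        Filter.codiscreteWithin (Metric.sphere (0 : ℂ) |(1 : ℝ)|) :=
      compl_finite_mem_codiscreteWithin hEfin
    have h2 : (Metric.sphere (0 : ℂ) |(1 : ℝ)|) ∈
        Filter.codiscreteWithin (Metric.sphere (0 : ℂ) |(1 : ℝ)|) :=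
      Filter.self_mem_codiscreteWithin _
    filter_upwards [h1, h2] with z hz1 hz2
    exact h z (by simpa using hz2) hz1
  refine ⟨w, hw, ?_, ?_⟩
  · have h1 : CircleIntegrable (fun z : ℂ => ((p.eval z / (z * ec.eval z)).re + 1) / 2) 0 1 := by
      have h2 : CircleIntegrable (fun _ : ℂ => (1 : ℝ)) 0 1 := circleIntegrable_const _ _ _
      have h3 := (hint.add h2).const_smul (a := (1 / 2 : ℝ))
      refine h3.congr_codiscreteWithin ?_
      apply hcod
      intro z _ _
      simp only [Pi.smul_apply, Pi.add_apply, smul_eq_mul]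
      ring
    refine h1.congr_codiscreteWithin ?_
    apply hcod
    intro z hz hzE
    show ((p.eval z / (z * ec.eval z)).re + 1) / 2 = _
    rw [hagree z hz hzE]
    ring
  · have h1 : Real.circleAverage (fun z => (1 - ‖w‖ ^ 2) / ‖z - w‖ ^ 2 *
        (2 * (evL z Q / evL z V).re - 1)) 0 1 = Real.circleAverage
        (fun z => (1 - ‖w‖ ^ 2) / ‖z - w‖ ^ 2 * (p.eval z / (z * ec.eval z)).re) 0 1 := by
      apply Real.circleAverage_congr_codiscreteWithin _ one_ne_zero
      apply hcod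
      intro z hz hzE
      rw [hagree z hz hzE]
    rw [h1]
    have h2 : -(p.eval 0 / ec.eval 0 * (1 / w - (starRingEnd ℂ) w)).re ≤
        2 / N' * (θ - θ⁻¹) := by
      have h3 : -(p.eval 0 / ec.eval 0 * (1 / w - (starRingEnd ℂ) w)).re ≤
          ‖p.eval 0 / ec.eval 0 * (1 / w - (starRingEnd ℂ) w)‖ := by
        have h4 := Complex.abs_re_le_norm (p.eval 0 / ec.eval 0 * (1 / w - (starRingEnd ℂ) w))
        exact le_trans (neg_le_abs _) h4
      refine h3.trans (le_of_eq ?_)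
      rw [norm_mul, norm_div]
      have h5 : ‖p.eval 0‖ = 2 := by
        rw [hpev, zero_mul, sub_zero, norm_mul, Complex.norm_ofNat]
        have h6 : qc.eval 0 = Coef.emb (q1.coeff 0) := by
          rw [hqc, ← Polynomial.coeff_zero_eq_eval_zero, Polynomial.coeff_map]
        rw [h6, hq, mul_one]
      have h7 : ‖ec.eval 0‖ = N' := by
        rw [hec, ← Polynomial.coeff_zero_eq_eval_zero, Polynomial.coeff_map, he]
      rw [h5, h7]
      congr 1
      have h8 : (1 / w - (starRingEnd ℂ) w) = ((1 - ‖w‖ ^ 2 : ℝ) : ℂ) / w := by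
        have h9 : (starRingEnd ℂ) w * w = ((‖w‖ ^ 2 : ℝ) : ℂ) := by
          rw [mul_comm, Complex.mul_conj, Complex.normSq_eq_norm_sq]
        rw [eq_div_iff hw0, sub_mul, one_div, inv_mul_cancel₀ hw0, h9]
        push_cast
        ring
      rw [h8, norm_div, hw, Complex.norm_real, Real.norm_eq_abs]
      have h10 : θ⁻¹ < 1 := inv_lt_one_of_one_lt₀ hθ
      have h11 : 0 < θ⁻¹ := inv_pos.mpr hθ0
      have h12 : 0 < 1 - θ⁻¹ ^ 2 := by nlinarith
      rw [abs_of_pos h12]
      field_simp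
    calc N' * (1 + Real.circleAverage
          (fun z => (1 - ‖w‖ ^ 2) / ‖z - w‖ ^ 2 * (p.eval z / (z * ec.eval z)).re) 0 1)
        ≤ N' * (2 / N' * (θ - θ⁻¹)) :=
          mul_le_mul_of_nonneg_left (hineq.trans h2) hN0.le
      _ = 2 * (θ - θ⁻¹) := by field_simp

end Pool.Agent.B5.H53
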